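import Pool.Agent.Results.MP_63ed06_co.OptimalFamily

/-! Consequences of the hand-in `OptimalFamily`: its earlier, weaker form, and the question word
for word for chains of proper subsets. -/

namespace Pool.Agent.Variants.MP_63ed06_co.OptimalFamily

open Pool.Agent.Lib.MP_63ed06_co

lemma range_le (K ε : ℝ) (hε : 0 < ε) : ∃ n₀ : ℕ, ∀ n ≥ n₀,
    (n : ℝ) * (1 - ε) ≤ n - K * Real.sqrt n := by
  obtain ⟨n₀, h⟩ := exists_nat_ge ((K / ε) ^ 2)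
  refine ⟨n₀, fun n hn => ?_⟩
  have h1 : (n₀ : ℝ) ≤ n := by exact_mod_cast hn
  have h2 : K / ε ≤ Real.sqrt n := Real.le_sqrt_of_sq_le (h.trans h1)
  have h3 := Real.mul_self_sqrt (by positivity : (0 : ℝ) ≤ n)
  rw [div_le_iff₀ hε] at h2
  nlinarith [Real.sqrt_nonneg n]

lemma btw_zero {n : ℕ} {C : Finset (Finset ℕ)} : IsChainBtw n 0 0 C ↔ IsChainIn n C :=
  ⟨And.left, fun h => ⟨h, fun A hA => ⟨Nat.zero_le _, by
    simpa using Finset.card_le_card (h.2.1 A hA)⟩⟩⟩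

/-- The earlier hand-in. -/
theorem result (ε : ℝ) (hε : 0 < ε) : ∃ n₀ : ℕ, ∀ n ≥ n₀, ∀ d : ℕ, 1 ≤ d →
    (d : ℝ) ≤ n * (1 - ε) → ∃ F : Finset (Finset (Finset ℕ)), Optimal n d F ∧
      ∀ C, C ∈ F ↔ IsChainIn n C ∧ Finset.Icc 1 n ∈ C ∧ ∀ j, j + 1 < d → Finset.Icc 1 j ∈ C := by
  obtain ⟨K, hK⟩ := Pool.Agent.Results.MP_63ed06_co.OptimalFamily.result
  obtain ⟨n₀, h⟩ := range_le K ε hε
  refine ⟨n₀, fun n hn d h1 h2 => ?_⟩
  obtain ⟨F, hF, hF'⟩ := hK 0 0 n d zero_le_one zero_le_one h1 (h2.trans (h n hn))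
  refine ⟨F, ?_, fun C => ?_⟩
  · simpa only [Optimal, DIntersecting, OptimalBtw, DIntBtw, btw_zero] using hF
  · rw [hF' C, btw_zero]
    exact and_congr_right fun _ => and_congr ⟨fun h => h rfl, fun h _ => h⟩
      (forall_congr' fun j => ⟨fun h hj => h (Nat.zero_le _) (by omega), fun h _ hj => h (by omega)⟩)

/-- The question word for word, for chains of proper subsets and every `ε > 0`. -/
theorem proper (ε : ℝ) (hε : 0 < ε) : ∃ n₀ : ℕ, ∀ n ≥ n₀, ∀ d : ℕ, 1 ≤ d →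
    (d : ℝ) ≤ n * (1 - ε) → ∃ F : Finset (Finset (Finset ℕ)), OptimalBtw n 0 1 d F ∧
      ∀ C ∈ F, ∀ j < d, Finset.Icc 1 j ∈ C := by
  obtain ⟨K, hK⟩ := Pool.Agent.Results.MP_63ed06_co.OptimalFamily.result
  obtain ⟨n₀, h⟩ := range_le K ε hε
  refine ⟨n₀, fun n hn d h1 h2 => ?_⟩
  obtain ⟨F, hF, hF'⟩ := hK 0 1 n d zero_le_one le_rfl h1 (h2.trans (h n hn))
  exact ⟨F, hF, fun C hC j hj => ((hF' C).mp hC).2.2 j (Nat.zero_le _) (by omega)⟩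

end Pool.Agent.Variants.MP_63ed06_co.OptimalFamily
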